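import Mathlib

/-!
An eleven dimensional algebra with no finite dimensional representation in which all
detectable linear dependences are visible at once.
-/

universe u v w

namespace Pool.Agent.Results.MP_81db1e_al.NoEnvelope

/-- The eleven dimensional algebra with basis `1, u1, u2, v1, v2` and the six products
`a = u1 v1 = u2 v2`, `b = u1 v2`, `c = u2 v1`, `d = v1 u2 = v2 u1`, `e = v1 u1`, `f = v2 u2`;
all other products of two of the generators and all products of three generators vanish. -/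
@[ext]
structure R11 (k : Type u) where
  s : k
  u1 : k
  u2 : k
  v1 : k
  v2 : k
  a : k
  b : k
  c : k
  d : k
  e : k
  f : k

namespace R11

variable {k : Type u} [Field k]

instance : Zero (R11 k) := ⟨⟨0, 0, 0, 0, 0, 0, 0, 0, 0, 0, 0⟩⟩
instance : One (R11 k) := ⟨⟨1, 0, 0, 0, 0, 0, 0, 0, 0, 0, 0⟩⟩
instance : Add (R11 k) := ⟨fun x y => ⟨x.s + y.s, x.u1 + y.u1, x.u2 + y.u2, x.v1 + y.v1,
  x.v2 + y.v2, x.a + y.a, x.b + y.b, x.c + y.c, x.d + y.d, x.e + y.e, x.f + y.f⟩⟩
instance : Neg (R11 k) := ⟨fun x => ⟨-x.s, -x.u1, -x.u2, -x.v1, -x.v2, -x.a, -x.b, -x.c, -x.d,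
  -x.e, -x.f⟩⟩
instance : Mul (R11 k) := ⟨fun x y =>
  ⟨x.s * y.s, x.s * y.u1 + x.u1 * y.s, x.s * y.u2 + x.u2 * y.s, x.s * y.v1 + x.v1 * y.s,
    x.s * y.v2 + x.v2 * y.s,
    x.s * y.a + x.a * y.s + (x.u1 * y.v1 + x.u2 * y.v2),
    x.s * y.b + x.b * y.s + x.u1 * y.v2,
    x.s * y.c + x.c * y.s + x.u2 * y.v1,
    x.s * y.d + x.d * y.s + (x.v1 * y.u2 + x.v2 * y.u1),
    x.s * y.e + x.e * y.s + x.v1 * y.u1,
    x.s * y.f + x.f * y.s + x.v2 * y.u2⟩⟩

@[simp] lemma zero_s : (0 : R11 k).s = 0 := rfl
@[simp] lemma zero_u1 : (0 : R11 k).u1 = 0 := rfl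
@[simp] lemma zero_u2 : (0 : R11 k).u2 = 0 := rfl
@[simp] lemma zero_v1 : (0 : R11 k).v1 = 0 := rfl
@[simp] lemma zero_v2 : (0 : R11 k).v2 = 0 := rfl
@[simp] lemma zero_a : (0 : R11 k).a = 0 := rfl
@[simp] lemma zero_b : (0 : R11 k).b = 0 := rfl
@[simp] lemma zero_c : (0 : R11 k).c = 0 := rfl
@[simp] lemma zero_d : (0 : R11 k).d = 0 := rfl
@[simp] lemma zero_e : (0 : R11 k).e = 0 := rfl
@[simp] lemma zero_f : (0 : R11 k).f = 0 := rfl
@[simp] lemma one_s : (1 : R11 k).s = 1 := rfl
@[simp] lemma one_u1 : (1 : R11 k).u1 = 0 := rfl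
@[simp] lemma one_u2 : (1 : R11 k).u2 = 0 := rfl
@[simp] lemma one_v1 : (1 : R11 k).v1 = 0 := rfl
@[simp] lemma one_v2 : (1 : R11 k).v2 = 0 := rfl
@[simp] lemma one_a : (1 : R11 k).a = 0 := rfl
@[simp] lemma one_b : (1 : R11 k).b = 0 := rfl
@[simp] lemma one_c : (1 : R11 k).c = 0 := rfl
@[simp] lemma one_d : (1 : R11 k).d = 0 := rfl
@[simp] lemma one_e : (1 : R11 k).e = 0 := rfl
@[simp] lemma one_f : (1 : R11 k).f = 0 := rfl

section
variable (x y : R11 k)
@[simp] lemma add_s : (x + y).s = x.s + y.s := rfl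
@[simp] lemma add_u1 : (x + y).u1 = x.u1 + y.u1 := rfl
@[simp] lemma add_u2 : (x + y).u2 = x.u2 + y.u2 := rfl
@[simp] lemma add_v1 : (x + y).v1 = x.v1 + y.v1 := rfl
@[simp] lemma add_v2 : (x + y).v2 = x.v2 + y.v2 := rfl
@[simp] lemma add_a : (x + y).a = x.a + y.a := rfl
@[simp] lemma add_b : (x + y).b = x.b + y.b := rfl
@[simp] lemma add_c : (x + y).c = x.c + y.c := rfl
@[simp] lemma add_d : (x + y).d = x.d + y.d := rfl
@[simp] lemma add_e : (x + y).e = x.e + y.e := rfl
@[simp] lemma add_f : (x + y).f = x.f + y.f := rfl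
@[simp] lemma neg_s : (-x).s = -x.s := rfl
@[simp] lemma neg_u1 : (-x).u1 = -x.u1 := rfl
@[simp] lemma neg_u2 : (-x).u2 = -x.u2 := rfl
@[simp] lemma neg_v1 : (-x).v1 = -x.v1 := rfl
@[simp] lemma neg_v2 : (-x).v2 = -x.v2 := rfl
@[simp] lemma neg_a : (-x).a = -x.a := rfl
@[simp] lemma neg_b : (-x).b = -x.b := rfl
@[simp] lemma neg_c : (-x).c = -x.c := rfl
@[simp] lemma neg_d : (-x).d = -x.d := rfl
@[simp] lemma neg_e : (-x).e = -x.e := rfl
@[simp] lemma neg_f : (-x).f = -x.f := rfl
@[simp] lemma mul_s : (x * y).s = x.s * y.s := rfl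
@[simp] lemma mul_u1 : (x * y).u1 = x.s * y.u1 + x.u1 * y.s := rfl
@[simp] lemma mul_u2 : (x * y).u2 = x.s * y.u2 + x.u2 * y.s := rfl
@[simp] lemma mul_v1 : (x * y).v1 = x.s * y.v1 + x.v1 * y.s := rfl
@[simp] lemma mul_v2 : (x * y).v2 = x.s * y.v2 + x.v2 * y.s := rfl
@[simp] lemma mul_a : (x * y).a = x.s * y.a + x.a * y.s + (x.u1 * y.v1 + x.u2 * y.v2) := rfl
@[simp] lemma mul_b : (x * y).b = x.s * y.b + x.b * y.s + x.u1 * y.v2 := rfl
@[simp] lemma mul_c : (x * y).c = x.s * y.c + x.c * y.s + x.u2 * y.v1 := rfl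
@[simp] lemma mul_d : (x * y).d = x.s * y.d + x.d * y.s + (x.v1 * y.u2 + x.v2 * y.u1) := rfl
@[simp] lemma mul_e : (x * y).e = x.s * y.e + x.e * y.s + x.v1 * y.u1 := rfl
@[simp] lemma mul_f : (x * y).f = x.s * y.f + x.f * y.s + x.v2 * y.u2 := rfl
end

instance : Ring (R11 k) := Ring.ofMinimalAxioms
  (by intro x y z; ext <;> simp <;> ring)
  (by intro x; ext <;> simp)
  (by intro x; ext <;> simp)
  (by intro x y z; ext <;> simp <;> ring)
  (by intro x; ext <;> simp)
  (by intro x; ext <;> simp)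
  (by intro x y z; ext <;> simp <;> ring)
  (by intro x y z; ext <;> simp <;> ring)

/-- The scalars. -/
def scal : k →+* R11 k where
  toFun r := ⟨r, 0, 0, 0, 0, 0, 0, 0, 0, 0, 0⟩
  map_one' := rfl
  map_zero' := rfl
  map_mul' x y := by ext <;> simp
  map_add' x y := by ext <;> simp

instance : Algebra k (R11 k) := RingHom.toAlgebra' scal (by
  intro c x
  ext <;> simp [scal] <;> ring)

lemma algebraMap_eq (c : k) : algebraMap k (R11 k) c = ⟨c, 0, 0, 0, 0, 0, 0, 0, 0, 0, 0⟩ := rfl

/-- The element `u1`. -/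
def U1 (k : Type u) [Field k] : R11 k := ⟨0, 1, 0, 0, 0, 0, 0, 0, 0, 0, 0⟩
/-- The element `u2`. -/
def U2 (k : Type u) [Field k] : R11 k := ⟨0, 0, 1, 0, 0, 0, 0, 0, 0, 0, 0⟩
/-- The element `v1`. -/
def V1 (k : Type u) [Field k] : R11 k := ⟨0, 0, 0, 1, 0, 0, 0, 0, 0, 0, 0⟩
/-- The element `v2`. -/
def V2 (k : Type u) [Field k] : R11 k := ⟨0, 0, 0, 0, 1, 0, 0, 0, 0, 0, 0⟩

end R11

open R11

/-- Square matrices of size three, in two copies. -/
abbrev Target (F : Type u) : Type u := Matrix (Fin 3) (Fin 3) F × Matrix (Fin 3) (Fin 3) F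

section maps

/-- Upper triangular matrices with constant diagonal. -/
def tri {F : Type u} [Field F] (s p q r : F) : Matrix (Fin 3) (Fin 3) F :=
  !![s, p, r; 0, s, q; 0, 0, s]

lemma tri_mul {F : Type u} [Field F] (s p q r s' p' q' r' : F) :
    tri s p q r * tri s' p' q' r' =
      tri (s * s') (s * p' + p * s') (s * q' + q * s') (s * r' + p * q' + r * s') := by
  ext i j
  fin_cases i <;> fin_cases j <;> simp [tri, Matrix.mul_apply, Fin.sum_univ_three]

lemma tri_add {F : Type u} [Field F] (s p q r s' p' q' r' : F) :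
    tri s p q r + tri s' p' q' r' = tri (s + s') (p + p') (q + q') (r + r') := by
  ext i j
  fin_cases i <;> fin_cases j <;> simp [tri]

lemma tri_scalar {F : Type u} [Field F] (s : F) :
    tri s 0 0 0 = algebraMap F (Matrix (Fin 3) (Fin 3) F) s := by
  ext i j
  fin_cases i <;> fin_cases j <;> simp [tri, Matrix.algebraMap_matrix_apply]

lemma tri_inj {F : Type u} [Field F] {s p q r s' p' q' r' : F}
    (h : tri s p q r = tri s' p' q' r') : s = s' ∧ p = p' ∧ q = q' ∧ r = r' := by
  refine ⟨?_, ?_, ?_, ?_⟩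
  · simpa [tri] using congrFun (congrFun h 0) 0
  · simpa [tri] using congrFun (congrFun h 0) 1
  · simpa [tri] using congrFun (congrFun h 1) 2
  · simpa [tri] using congrFun (congrFun h 0) 2

variable (k : Type u) [Field k] (F : Type u) [Field F] [Algebra k F] (t : F)

/-- The first candidate representation: `u1 = t u2`. -/
def fun1 (x : R11 k) : Target F :=
  (tri (algebraMap k F x.s) (algebraMap k F x.u1 * t + algebraMap k F x.u2)
      (algebraMap k F x.v1 + algebraMap k F x.v2 * t)
      (algebraMap k F x.a * t + algebraMap k F x.b * t ^ 2 + algebraMap k F x.c),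
   tri (algebraMap k F x.s) (algebraMap k F x.v1 * t + algebraMap k F x.v2)
      (algebraMap k F x.u1 * t + algebraMap k F x.u2)
      (algebraMap k F x.d * t + algebraMap k F x.e * t ^ 2 + algebraMap k F x.f))

/-- The second candidate representation: `v1 = t v2`. -/
def fun2 (x : R11 k) : Target F :=
  (tri (algebraMap k F x.s) (algebraMap k F x.u1 + algebraMap k F x.u2 * t)
      (algebraMap k F x.v1 * t + algebraMap k F x.v2)
      (algebraMap k F x.a * t + algebraMap k F x.b + algebraMap k F x.c * t ^ 2),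
   tri (algebraMap k F x.s) (algebraMap k F x.v1 * t + algebraMap k F x.v2)
      (algebraMap k F x.u1 * t + algebraMap k F x.u2)
      (algebraMap k F x.d * t + algebraMap k F x.e * t ^ 2 + algebraMap k F x.f))

lemma fun1_mul (x y : R11 k) : fun1 k F t (x * y) = fun1 k F t x * fun1 k F t y := by
  refine Prod.ext ?_ ?_
  · change _ = tri _ _ _ _ * tri _ _ _ _
    rw [tri_mul]
    simp only [fun1, mul_s, mul_u1, mul_u2, mul_v1, mul_v2, mul_a, mul_b, mul_c, mul_d, mul_e,
      mul_f, map_add, map_mul]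
    congr 1 <;> ring
  · change _ = tri _ _ _ _ * tri _ _ _ _
    rw [tri_mul]
    simp only [fun1, mul_s, mul_u1, mul_u2, mul_v1, mul_v2, mul_a, mul_b, mul_c, mul_d, mul_e,
      mul_f, map_add, map_mul]
    congr 1 <;> ring

lemma fun2_mul (x y : R11 k) : fun2 k F t (x * y) = fun2 k F t x * fun2 k F t y := by
  refine Prod.ext ?_ ?_
  · change _ = tri _ _ _ _ * tri _ _ _ _
    rw [tri_mul]
    simp only [fun2, mul_s, mul_u1, mul_u2, mul_v1, mul_v2, mul_a, mul_b, mul_c, mul_d, mul_e,
      mul_f, map_add, map_mul]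
    congr 1 <;> ring
  · change _ = tri _ _ _ _ * tri _ _ _ _
    rw [tri_mul]
    simp only [fun2, mul_s, mul_u1, mul_u2, mul_v1, mul_v2, mul_a, mul_b, mul_c, mul_d, mul_e,
      mul_f, map_add, map_mul]
    congr 1 <;> ring

lemma fun1_add (x y : R11 k) : fun1 k F t (x + y) = fun1 k F t x + fun1 k F t y := by
  refine Prod.ext ?_ ?_
  · change _ = tri _ _ _ _ + tri _ _ _ _
    rw [tri_add]
    simp only [fun1, add_s, add_u1, add_u2, add_v1, add_v2, add_a, add_b, add_c, add_d, add_e,
      add_f, map_add]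
    congr 1 <;> ring
  · change _ = tri _ _ _ _ + tri _ _ _ _
    rw [tri_add]
    simp only [fun1, add_s, add_u1, add_u2, add_v1, add_v2, add_a, add_b, add_c, add_d, add_e,
      add_f, map_add]
    congr 1 <;> ring

lemma fun2_add (x y : R11 k) : fun2 k F t (x + y) = fun2 k F t x + fun2 k F t y := by
  refine Prod.ext ?_ ?_
  · change _ = tri _ _ _ _ + tri _ _ _ _
    rw [tri_add]
    simp only [fun2, add_s, add_u1, add_u2, add_v1, add_v2, add_a, add_b, add_c, add_d, add_e,
      add_f, map_add]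
    congr 1 <;> ring
  · change _ = tri _ _ _ _ + tri _ _ _ _
    rw [tri_add]
    simp only [fun2, add_s, add_u1, add_u2, add_v1, add_v2, add_a, add_b, add_c, add_d, add_e,
      add_f, map_add]
    congr 1 <;> ring

lemma fun1_scal (r : k) : fun1 k F t (algebraMap k (R11 k) r) = algebraMap k (Target F) r := by
  refine Prod.ext ?_ ?_
  · change tri _ _ _ _ = algebraMap k (Matrix (Fin 3) (Fin 3) F) r
    simp only [algebraMap_eq, map_zero, zero_mul, add_zero]
    rw [tri_scalar, ← IsScalarTower.algebraMap_apply]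
  · change tri _ _ _ _ = algebraMap k (Matrix (Fin 3) (Fin 3) F) r
    simp only [algebraMap_eq, map_zero, zero_mul, add_zero]
    rw [tri_scalar, ← IsScalarTower.algebraMap_apply]

lemma fun2_scal (r : k) : fun2 k F t (algebraMap k (R11 k) r) = algebraMap k (Target F) r := by
  refine Prod.ext ?_ ?_
  · change tri _ _ _ _ = algebraMap k (Matrix (Fin 3) (Fin 3) F) r
    simp only [algebraMap_eq, map_zero, zero_mul, add_zero]
    rw [tri_scalar, ← IsScalarTower.algebraMap_apply]
  · change tri _ _ _ _ = algebraMap k (Matrix (Fin 3) (Fin 3) F) r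
    simp only [algebraMap_eq, map_zero, zero_mul, add_zero]
    rw [tri_scalar, ← IsScalarTower.algebraMap_apply]

/-- The representation in which `u1 = t u2`. -/
def rep1 : R11 k →ₐ[k] Target F where
  toFun := fun1 k F t
  map_one' := by
    have := fun1_scal k F t 1
    rwa [map_one, map_one] at this
  map_zero' := by
    have := fun1_scal k F t 0
    rwa [map_zero, map_zero] at this
  map_mul' := fun1_mul k F t
  map_add' := fun1_add k F t
  commutes' := fun1_scal k F t

/-- The representation in which `v1 = t v2`. -/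
def rep2 : R11 k →ₐ[k] Target F where
  toFun := fun2 k F t
  map_one' := by
    have := fun2_scal k F t 1
    rwa [map_one, map_one] at this
  map_zero' := by
    have := fun2_scal k F t 0
    rwa [map_zero, map_zero] at this
  map_mul' := fun2_mul k F t
  map_add' := fun2_add k F t
  commutes' := fun2_scal k F t

end maps

lemma lin_indep {k : Type u} [Field k] {p q r : k}
    (h : algebraMap k (RatFunc k) p * RatFunc.X + algebraMap k (RatFunc k) q * RatFunc.X ^ 2 +
      algebraMap k (RatFunc k) r = 0) : p = 0 ∧ q = 0 ∧ r = 0 := by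
  have h1 : algebraMap (Polynomial k) (RatFunc k)
      (Polynomial.C p * Polynomial.X + Polynomial.C q * Polynomial.X ^ 2 + Polynomial.C r) = 0 := by
    rw [map_add, map_add, map_mul, map_mul, map_pow, RatFunc.algebraMap_X]
    simpa [RatFunc.algebraMap_eq_C] using h
  have h2 : Polynomial.C p * Polynomial.X + Polynomial.C q * Polynomial.X ^ 2 +
      Polynomial.C r = 0 :=
    (injective_iff_map_eq_zero _).1 (RatFunc.algebraMap_injective k) _ h1
  refine ⟨?_, ?_, ?_⟩
  · simpa [Polynomial.coeff_X, Polynomial.coeff_C] using congrArg (fun g => g.coeff 1) h2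
  · simpa [Polynomial.coeff_X, Polynomial.coeff_C] using congrArg (fun g => g.coeff 2) h2
  · simpa [Polynomial.coeff_X, Polynomial.coeff_C] using congrArg (fun g => g.coeff 0) h2

lemma lin_indep' {k : Type u} [Field k] {p r : k}
    (h : algebraMap k (RatFunc k) p * RatFunc.X + algebraMap k (RatFunc k) r = 0) :
    p = 0 ∧ r = 0 := by
  have := lin_indep (p := p) (q := 0) (r := r) (by rw [map_zero, zero_mul, add_zero]; exact h)
  exact ⟨this.1, this.2.2⟩

lemma tri_eq_zero {F : Type u} [Field F] {s p q r : F}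
    (h : tri s p q r = 0) : s = 0 ∧ p = 0 ∧ q = 0 ∧ r = 0 := by
  have h0 : tri s p q r = tri 0 0 0 0 := by
    rw [h, tri_scalar, map_zero]
  exact tri_inj h0

lemma rep1_injective (k : Type u) [Field k] :
    Function.Injective (rep1 k (RatFunc k) RatFunc.X) := by
  rw [injective_iff_map_eq_zero]
  intro x hx
  have h1 := tri_eq_zero (congrArg Prod.fst hx)
  have h2 := tri_eq_zero (congrArg Prod.snd hx)
  obtain ⟨hs, hu, hv, habc⟩ := h1
  obtain ⟨_, _, _, hdef⟩ := h2
  rw [add_comm] at hv
  have hu' := lin_indep' hu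
  have hv' := lin_indep' hv
  have h3 := lin_indep habc
  have h4 := lin_indep hdef
  have hs' : x.s = 0 := (map_eq_zero _).1 hs
  ext
  · exact hs'
  · exact hu'.1
  · exact hu'.2
  · exact hv'.2
  · exact hv'.1
  · exact h3.1
  · exact h3.2.1
  · exact h3.2.2
  · exact h4.1
  · exact h4.2.1
  · exact h4.2.2

lemma rep2_injective (k : Type u) [Field k] :
    Function.Injective (rep2 k (RatFunc k) RatFunc.X) := by
  rw [injective_iff_map_eq_zero]
  intro x hx
  have h1 := tri_eq_zero (congrArg Prod.fst hx)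
  have h2 := tri_eq_zero (congrArg Prod.snd hx)
  obtain ⟨hs, hu, hv, habc⟩ := h1
  obtain ⟨_, _, _, hdef⟩ := h2
  rw [add_comm] at hu
  have hu' := lin_indep' hu
  have hv' := lin_indep' hv
  have h3 := lin_indep (p := x.a) (q := x.c) (r := x.b) (by rw [← habc]; ring)
  have h4 := lin_indep hdef
  have hs' : x.s = 0 := (map_eq_zero _).1 hs
  ext
  · exact hs'
  · exact hu'.2
  · exact hu'.1
  · exact hv'.1
  · exact hv'.2
  · exact h3.1
  · exact h3.2.2
  · exact h3.2.1
  · exact h4.1
  · exact h4.2.1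
  · exact h4.2.2

lemma rep1_dep (k : Type u) [Field k] :
    ¬ LinearIndependent (RatFunc k)
      (fun i : Fin 2 => rep1 k (RatFunc k) RatFunc.X (![U1 k, U2 k] i)) := by
  intro h
  have e : (fun i : Fin 2 => rep1 k (RatFunc k) RatFunc.X (![U1 k, U2 k] i)) =
      ![rep1 k (RatFunc k) RatFunc.X (U1 k), rep1 k (RatFunc k) RatFunc.X (U2 k)] := by
    funext i
    fin_cases i <;> rfl
  rw [e] at h
  have h2 := LinearIndependent.pair_iff.1 h 1 (-RatFunc.X) ?_
  · exact one_ne_zero h2.1
  · refine Prod.ext ?_ ?_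
    · ext i j
      fin_cases i <;> fin_cases j <;> simp [rep1, fun1, tri, U1, U2]
    · ext i j
      fin_cases i <;> fin_cases j <;> simp [rep1, fun1, tri, U1, U2]

lemma rep2_dep (k : Type u) [Field k] :
    ¬ LinearIndependent (RatFunc k)
      (fun i : Fin 2 => rep2 k (RatFunc k) RatFunc.X (![V1 k, V2 k] i)) := by
  intro h
  have e : (fun i : Fin 2 => rep2 k (RatFunc k) RatFunc.X (![V1 k, V2 k] i)) =
      ![rep2 k (RatFunc k) RatFunc.X (V1 k), rep2 k (RatFunc k) RatFunc.X (V2 k)] := by
    funext i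
    fin_cases i <;> rfl
  rw [e] at h
  have h2 := LinearIndependent.pair_iff.1 h 1 (-RatFunc.X) ?_
  · exact one_ne_zero h2.1
  · refine Prod.ext ?_ ?_
    · ext i j
      fin_cases i <;> fin_cases j <;> simp [rep2, fun2, tri, V1, V2]
    · ext i j
      fin_cases i <;> fin_cases j <;> simp [rep2, fun2, tri, V1, V2]

section obstruction

variable {k : Type u} [Field k] {F : Type v} [Field F] {A : Type w} [NonUnitalRing A]
  [Module F A] [IsScalarTower F A A] [SMulCommClass F A A] [Module k A]

omit [IsScalarTower F A A] [SMulCommClass F A A] in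
/-- A dependent pair of nonzero vectors is proportional. -/
lemma prop_of_dep {x y : A} (hy : y ≠ 0) (h : ¬ LinearIndependent F ![x, y]) :
    ∃ c : F, x = c • y := by
  rw [LinearIndependent.pair_iff] at h
  push Not at h
  obtain ⟨s, t, hst, hne⟩ := h
  by_cases hs : s = 0
  · have ht : t ≠ 0 := hne hs
    rw [hs, zero_smul, zero_add] at hst
    exact absurd ((smul_eq_zero.1 hst).resolve_left ht) hy
  · refine ⟨-(s⁻¹ * t), ?_⟩
    have h1 : s • x = -(t • y) := eq_neg_of_add_eq_zero_left hst
    calc x = s⁻¹ • (s • x) := by rw [smul_smul, inv_mul_cancel₀ hs, one_smul]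
      _ = s⁻¹ • (-(t • y)) := by rw [h1]
      _ = (-(s⁻¹ * t)) • y := by rw [smul_neg, smul_smul, neg_smul]

lemma mul_rel_a : U1 k * V1 k = U2 k * V2 k := by ext <;> simp [U1, U2, V1, V2]
lemma mul_rel_d : V1 k * U2 k = V2 k * U1 k := by ext <;> simp [U1, U2, V1, V2]
lemma mul_a_ne : U2 k * V2 k ≠ 0 := fun h => by
  have := congrArg R11.a h
  simp [U2, V2] at this
lemma mul_f_ne : V2 k * U2 k ≠ 0 := fun h => by
  have := congrArg R11.f h
  simp [U2, V2] at this

/-- In no representation are both pairs dependent. -/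
lemma not_both (φ : R11 k →ₙₐ[k] A) (hφ : Function.Injective φ)
    (hu : ¬ LinearIndependent F ![φ (U1 k), φ (U2 k)])
    (hv : ¬ LinearIndependent F ![φ (V1 k), φ (V2 k)]) : False := by
  have hne : ∀ z : R11 k, z ≠ 0 → φ z ≠ 0 := fun z hz h => hz (hφ (h.trans (map_zero φ).symm))
  have hU2 : (U2 k) ≠ 0 := fun h => by simpa [U2] using congrArg R11.u2 h
  have hV2 : (V2 k) ≠ 0 := fun h => by simpa [V2] using congrArg R11.v2 h
  obtain ⟨t, ht⟩ := prop_of_dep (hne _ hU2) hu
  obtain ⟨s, hs⟩ := prop_of_dep (hne _ hV2) hv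
  have ha : φ (U2 k) * φ (V2 k) ≠ 0 := by
    rw [← map_mul]; exact hne _ mul_a_ne
  have hf : φ (V2 k) * φ (U2 k) ≠ 0 := by
    rw [← map_mul]; exact hne _ mul_f_ne
  have h1 : (t * s) • (φ (U2 k) * φ (V2 k)) = φ (U2 k) * φ (V2 k) := by
    have := congrArg φ (mul_rel_a (k := k))
    rw [map_mul, map_mul, ht, hs, smul_mul_assoc, mul_smul_comm, smul_smul] at this
    exact this
  have h2 : s • (φ (V2 k) * φ (U2 k)) = t • (φ (V2 k) * φ (U2 k)) := by
    have := congrArg φ (mul_rel_d (k := k))
    rw [map_mul, map_mul, ht, hs, smul_mul_assoc, mul_smul_comm] at this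
    exact this
  have hst : s = t := by
    have h3 : (s - t) • (φ (V2 k) * φ (U2 k)) = 0 := by rw [sub_smul, h2, sub_self]
    exact sub_eq_zero.1 ((smul_eq_zero.1 h3).resolve_right hf)
  have hts : t * s = 1 := by
    have h3 : (t * s - 1) • (φ (U2 k) * φ (V2 k)) = 0 := by rw [sub_smul, h1, one_smul, sub_self]
    exact sub_eq_zero.1 ((smul_eq_zero.1 h3).resolve_right ha)
  rw [hst] at hts
  rcases mul_self_eq_one_iff.1 hts with h | h
  · rw [h, one_smul] at ht
    have := congrArg R11.u1 (hφ ht)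
    simp [U1, U2] at this
  · rw [h, neg_smul, one_smul, ← map_neg] at ht
    have := congrArg R11.u1 (hφ ht)
    simp [U1, U2] at this

end obstruction

/-- The negative answer to Q1, over every field `k`: there is a `k`-algebra `R` which has finite
dimensional representations, and for every finite dimensional representation `φ : R → A` over an
extension field `F` (the algebra `A` need not be unital and `φ` need not preserve the unit) some
pair of elements of `R` is linearly independent in `A` but becomes linearly dependent in some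
other (unital) finite dimensional representation. -/
theorem result (k : Type u) [Field k] :
    ∃ (R : Type u) (_ : Ring R) (_ : Algebra k R),
      (∃ (F : Type u) (_ : Field F) (_ : Algebra k F) (A : Type u) (_ : Ring A)
        (_ : Algebra F A) (_ : Algebra k A) (_ : IsScalarTower k F A) (φ : R →ₐ[k] A),
        FiniteDimensional F A ∧ Function.Injective φ) ∧
      ∀ (F : Type v) [Field F] [Algebra k F] (A : Type w) [NonUnitalRing A] [Module F A]
        [IsScalarTower F A A] [SMulCommClass F A A] [Module k A] [IsScalarTower k F A]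
        (φ : R →ₙₐ[k] A), FiniteDimensional F A → Function.Injective φ →
        ∃ r : Fin 2 → R, LinearIndependent F (fun i => φ (r i)) ∧
          ∃ (F' : Type u) (_ : Field F') (_ : Algebra k F') (A' : Type u) (_ : Ring A')
            (_ : Algebra F' A') (_ : Algebra k A') (_ : IsScalarTower k F' A')
            (φ' : R →ₐ[k] A'), FiniteDimensional F' A' ∧ Function.Injective φ' ∧
            ¬ LinearIndependent F' (fun i => φ' (r i)) := by
  refine ⟨R11 k, inferInstance, inferInstance, ?_, ?_⟩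
  · exact ⟨RatFunc k, inferInstance, inferInstance, Target (RatFunc k), inferInstance,
      inferInstance, inferInstance, inferInstance, rep1 k (RatFunc k) RatFunc.X, inferInstance,
      rep1_injective k⟩
  · intro F _ _ A _ _ _ _ _ _ φ _ hφ
    by_cases hu : LinearIndependent F ![φ (U1 k), φ (U2 k)]
    · refine ⟨![U1 k, U2 k], ?_, RatFunc k, inferInstance, inferInstance, Target (RatFunc k),
        inferInstance, inferInstance, inferInstance, inferInstance,
        rep1 k (RatFunc k) RatFunc.X, inferInstance, rep1_injective k, rep1_dep k⟩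
      convert hu using 1
      ext i; fin_cases i <;> rfl
    · by_cases hv : LinearIndependent F ![φ (V1 k), φ (V2 k)]
      · refine ⟨![V1 k, V2 k], ?_, RatFunc k, inferInstance, inferInstance, Target (RatFunc k),
          inferInstance, inferInstance, inferInstance, inferInstance,
          rep2 k (RatFunc k) RatFunc.X, inferInstance, rep2_injective k, rep2_dep k⟩
        convert hv using 1
        ext i; fin_cases i <;> rfl
      · exact (not_both φ hφ hu hv).elim

end Pool.Agent.Results.MP_81db1e_al.NoEnvelope
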